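import Pool.Agent.H73.LPC.Stmts

/-!
Row ATR of the board `lpc` (MP_e1af46_an): convergence of the iterates spreads.
-/

set_option autoImplicit false

open Set Filter Topology MeasureTheory Metric

namespace Pool.LPC

open Pool.PHS

theorem ATR_thm (h1 : IDNStmt) (h2 : IT1Stmt) : ATRStmt := by
  intro n D U f p hDo hDc hDb hf hUo hUD hUne hconv z hz
  have hmaps : ∀ k : ℕ, MapsTo (f^[k]) D D := fun k => hf.maps.iterate k
  have hdiff : ∀ k : ℕ, DifferentiableOn ℂ (f^[k]) D := by
    intro k
    induction k with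
    | zero => exact differentiableOn_id
    | succ k ih => exact ih.comp hf.hol hf.maps
  rw [tendsto_iff_ultrafilter]
  intro l hl
  obtain ⟨g, hg, -, hgl⟩ := h2 n D l (fun k => f^[k]) hDo hDb hdiff
    (fun k x hx => subset_closure (hmaps k hx))
  have hpt : ∀ y ∈ D, Tendsto (fun k => f^[k] y) (l : Filter ℕ) (𝓝 (g y)) :=
    fun y hy => hgl.tendsto_at hy
  have hU : ∀ y ∈ U, g y = p := fun y hy =>
    tendsto_nhds_unique (hpt y (hUD hy)) ((hconv y hy).mono_left hl)
  have hgz : g z = p := by
    ext i
    have h3 := h1 n (fun y => g y i) (fun _ => p i) D U hDo hDc.isPreconnected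
      ((differentiableOn_pi.1 hg) i) (differentiableOn_const _) hUo hUD hUne
      (fun y hy => by simp only [hU y hy])
    exact h3 hz
  rw [← hgz]
  exact hpt z hz

end Pool.LPC
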